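import Mathlib
import Pool.Agent.H228R4.Euclid

set_option autoImplicit false

namespace Pool.Agent.Results.MP_528470_co.TransitiveSubsoluble

/-- The subgroup of the isometries of `ℝ^n` mapping `X` onto itself acts transitively on `X`. -/
def IsTransitiveSet {n : ℕ} (X : Set (EuclideanSpace ℝ (Fin n))) : Prop :=
  ∀ x ∈ X, ∀ y ∈ X, ∃ g : EuclideanSpace ℝ (Fin n) ≃ᵢ EuclideanSpace ℝ (Fin n),
    ⇑g '' X = X ∧ g x = y

/-- `Y` is a soluble set: a soluble group of isometries, each mapping `Y` onto itself, acts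
transitively on `Y`. -/
def IsSolubleSet {n : ℕ} (Y : Set (EuclideanSpace ℝ (Fin n))) : Prop :=
  ∃ H : Subgroup (EuclideanSpace ℝ (Fin n) ≃ᵢ EuclideanSpace ℝ (Fin n)),
    Group.IsSolvable H ∧ (∀ h ∈ H, ⇑h '' Y = Y) ∧ ∀ y ∈ Y, ∀ z ∈ Y, ∃ h ∈ H, h y = z

/-- A group of isometries, of order a power of two, each of whose elements maps `Y` onto itself,
acts transitively on `Y`. -/
def IsTwoGroupSet {n : ℕ} (Y : Set (EuclideanSpace ℝ (Fin n))) : Prop :=
  ∃ H : Subgroup (EuclideanSpace ℝ (Fin n) ≃ᵢ EuclideanSpace ℝ (Fin n)),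
    (∃ k : ℕ, Nat.card H = 2 ^ k) ∧ (∀ h ∈ H, ⇑h '' Y = Y) ∧ ∀ y ∈ Y, ∀ z ∈ Y, ∃ h ∈ H, h y = z

/-- Every finite transitive set is subsoluble, and the soluble set that contains an isometric copy
of it can be chosen with a transitive symmetry group of order a power of two. -/
theorem result : ∀ (d : ℕ) (X : Set (EuclideanSpace ℝ (Fin d))), X.Finite → IsTransitiveSet X →
    ∃ n : ℕ, d ≤ n ∧ ∃ Y : Set (EuclideanSpace ℝ (Fin n)),
      Y.Finite ∧ IsSolubleSet Y ∧ IsTwoGroupSet Y ∧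
      ∃ f : EuclideanSpace ℝ (Fin d) → EuclideanSpace ℝ (Fin n), Isometry f ∧ f '' X ⊆ Y := by
  intro d X hX htr
  rcases Set.eq_empty_or_nonempty X with hne | hne
  · subst hne
    refine ⟨d, le_rfl, ∅, Set.finite_empty, ⟨⊥, inferInstance, ?_, ?_⟩, ⟨⊥, ⟨0, by simp⟩, ?_, ?_⟩,
      id, isometry_id, by simp⟩
    · intro h _; simp
    · intro y hy; exact absurd hy (Set.notMem_empty y)
    · intro h _; simp
    · intro y hy; exact absurd hy (Set.notMem_empty y)
  · obtain ⟨m, Y, f, h1, h2, h3, H, h4, h5, h6, h7⟩ :=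
      Pool.Agent.H228R4.embed d X hX hne htr
    refine ⟨m, ?_, Y, h1, ⟨H, h5, h6, h7⟩, ⟨H, h4, h6, h7⟩, f, h2, h3⟩
    have hinj := (h2.affineIsometryOfStrictConvexSpace).linearIsometry.injective
    have := LinearMap.finrank_le_finrank_of_injective
      (f := (h2.affineIsometryOfStrictConvexSpace).linearIsometry.toLinearMap) hinj
    simpa using this

end Pool.Agent.Results.MP_528470_co.TransitiveSubsoluble
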